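import Mathlib
import Pool.Agent.H934.Defs
import Pool.Agent.H934.K.Defs
import Pool.Agent.H934.K.IndecB

set_option autoImplicit false

open CategoryTheory CategoryTheory.Limits CategoryTheory.Pretriangulated

namespace Pool.Agent.Results.MP_0ba2dd_ag.NoSOD

universe w v u

open Pool.Agent.H934 Pool.Agent.H934.K

/-- **Indecomposability.** Let `𝕜` be a field and let `T` be a `𝕜`-linear triangulated category of
finite type with a Serre functor `S` such that `S³(E) ≅ E[5]` for all objects `E`, whose numerical
Grothendieck group has rank two and negative definite Euler form. Assume that there is an object `I`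
with `χ(I, I) = -1` and `dim Hom(I, I[1]) = 2`, and that there is a Serre-invariant stability
condition on `T`. Then `T` has no nontrivial semiorthogonal decomposition.

The Kuznetsov component of a smooth cubic threefold `X` over an algebraically closed field has all
these properties, with `I` the ideal sheaf of a line in `X`. -/
theorem result {𝕜 : Type w} [Field 𝕜] {T : Type u} [Category.{v} T] [Preadditive T]
    [HasZeroObject T] [HasShift T ℤ] [∀ n : ℤ, (shiftFunctor T n).Additive] [Pretriangulated T]
    [IsTriangulated T] [Linear 𝕜 T] [∀ n : ℤ, (shiftFunctor T n).Linear 𝕜]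
    (𝒮 : K.SerreFunctor 𝕜 T) (hT : K.FracCY T 𝒮 5)
    (I : T) (hI : K.eul 𝕜 I I = -1) (hI' : Module.finrank 𝕜 (I ⟶ I⟦(1 : ℤ)⟧) = 2)
    (σ₀ : K.StabCond 𝕜 T) (hσ₀ : K.SerreInvariant 𝒮 σ₀)
    (𝒜 ℬ : ObjectProperty T) (h : IsSOD 𝒜 ℬ) :
    (∀ A : T, 𝒜 A → IsZero A) ∨ (∀ B : T, ℬ B → IsZero B) :=
  indecomposable hT hI hI' σ₀ hσ₀ 𝒜 ℬ h

end Pool.Agent.Results.MP_0ba2dd_ag.NoSOD
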